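import Pool.Agent.H59UC.Flag2

set_option autoImplicit false

/-! # The stronger form of the strong monodromy conjecture for determinantal ideals and their
# products

Let `x` be the generic matrix of one of the three spaces `S` of matrices: all `m × n` matrices, the
symmetric `n × n` matrices, the skew symmetric `n × n` matrices (`MSpace`). Let `I_t` be the ideal of
the `p t`-minors of `x` (of the Pfaffians of size `2 (p t)` in the skew symmetric case), where
`p t < min (m, n)`, `p t < n`, or `2 (p t) + 1 < n` (`Small`), and let `I = ∏ t, I_t`, `t < T`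
(repetitions allowed: products of powers), with the generators `detProd S p`. Let

  `N_d = ∑ t, max (p t - d, 0)`,  `ν_d = codim {rank ≤ d}` (`rank ≤ 2 d` in the skew symmetric case).

The poles of the topological zeta function `Z_I` are among the `-ν_d / N_d`, and they are roots of
the Bernstein-Sato polynomial `b_I` (`DeterminantalProducts`). Here we prove Q2, the stronger form:
**`b_I(s) Z_I(s)` is a polynomial**, under the condition that the numbers `ν_d / N_d`, `N_d > 0`, are
pairwise different (`Distinct`).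

When is this so? (`gap` is `4 (m - p) (n - p)`, `4 (n - p) (n - p + 1)`, `(n - 2 p) (n - 2 p - 1)` in the
three cases.)

* For all products of the `I_t` with `4 (p t) (p t - 1) < gap (p t)` for all `t`, that is,
  `(m - p) (n - p) > p (p - 1)`, or `n ≥ 2 p` (symmetric), or `(n - 2 p) (n - 2 p - 1) > 4 p (p - 1)`
  for each `p = p t`; for instance, in the case of the generic matrices, if `2 (p t) ≤ min (m, n)`.
* For the powers `I_r ^ T` of a single determinantal ideal, if `gap` is not `4 x y` for some integers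
  `0 < x < y ≤ r`. So for the ideal of the `r`-minors of the generic `m × n` matrix the only
  exceptions are the ones with `(m - r) (n - r) = x y`, `0 < x < y ≤ r`; for instance for `r = 2` only
  the `3 × 4` and the `4 × 3` matrices, and for `m = n = 3` there is no exception. (Docampo computed
  `Z_I = ∏_{d < r} (1 + s (r - d) / ((m - d) (n - d)))⁻¹` for `T = 1`; in the exceptional cases it has
  a double pole.)

The topological zeta function is defined as by Denef and Loeser, from the motivic zeta function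
`Z_mot(T) = ∑_d [X_d] 𝕃 ^ (-n d) T ^ d` in `𝓜[[T]]`, `X_d` the `d`-jets on which `I` has the order `d`
(`zetaId`), `𝓜` the Grothendieck ring of complex varieties, localised at `𝕃`:
`Z_I(s) = χ(Z_mot(𝕃 ^ (-s)))` for `s = 1, 2, 3, …`. For this, let `E` be a homomorphism from `𝓜` to a
domain `R` with `E(𝕃) ≠ 1`, such as the Hodge-Deligne polynomial `E(u, v)`, and `ε` a homomorphism from
`R` to `ℂ` with `ε(E(𝕃)) = 1`, such as `u, v ↦ 1`, so that `ε ∘ E` is the Euler characteristic `χ`
(`IsTopZeta`).

The proof. No resolution is used: the recursion by pivots for the motivic zeta function shows that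
`Z_mot` lies in the module which is generated over `𝓜[T]` by the products
`∏_{d ∈ s} (𝕃 - 1) / (1 - 𝕃 ^ (-ν_d) T ^ (N_d))` with different levels `d` (`zetaId_flag`): each level
is met at most once, as the rank of the pivot block increases. So `Z_I` has only simple poles if the
numbers `-ν_d / N_d` are different, and they are roots of `b_I` as the divisors over the
matrices of rank at most `d` are Rees divisors. -/

namespace Pool.Agent.Results.MP_ee8c61_ag.DeterminantalStrong

open MvPolynomial Pool.Agent.TH192.DT Pool.Agent.TH192.MT Pool.Agent.TH192.MU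
  Pool.Agent.W428.MOT Pool.Agent.W574.SM Pool.Agent.W574.LM Pool.Agent.H59UC Pool.Agent.H59UC.Flag

/-- `4 (m - p) (n - p)`, `4 (n - p) (n - p + 1)`, `(n - 2 p) (n - 2 p - 1)`. -/
def gap : MSpace → ℕ → ℕ
  | .gen m n, p => 4 * ((m - p) * (n - p))
  | .sym n, p => 4 * ((n - p) * (n - p + 1))
  | .skew n, p => (n - 2 * p) * (n - 2 * p - 1)

/-- The numbers `ν_d / N_d`, `N_d = ∑ t, max (p t - d, 0) > 0`, are pairwise different. -/
def Distinct (S : MSpace) {T : ℕ} (p : Fin T → ℕ) : Prop :=
  ∀ d d' : ℕ, d < d' → 0 < ∑ t, (p t - d') →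
    S.codim d * ∑ t, (p t - d') ≠ S.codim d' * ∑ t, (p t - d)

theorem codim_form (S : MSpace) (p : ℕ) (hS : S.Small p) :
    ∃ k c : ℕ, 0 < k ∧ ∀ x ≤ p, k * S.codim (p - x) = 4 * (x * x) + c * x + gap S p := by
  cases S with
  | gen m n =>
    obtain ⟨h1, h2⟩ := hS
    refine ⟨4, 4 * ((m - p) + (n - p)), by norm_num, fun x hx => ?_⟩
    obtain ⟨y, rfl⟩ := Nat.exists_eq_add_of_le hx
    obtain ⟨i, rfl⟩ := Nat.exists_eq_add_of_lt h1
    obtain ⟨j, rfl⟩ := Nat.exists_eq_add_of_lt h2
    have e1 : x + y + i + 1 - (x + y - x) = x + i + 1 := by omega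
    have e2 : x + y + j + 1 - (x + y - x) = x + j + 1 := by omega
    have e3 : x + y + i + 1 - (x + y) = i + 1 := by omega
    have e4 : x + y + j + 1 - (x + y) = j + 1 := by omega
    change 4 * ((x + y + i + 1 - (x + y - x)) * (x + y + j + 1 - (x + y - x))) =
      4 * (x * x) + 4 * ((x + y + i + 1 - (x + y)) + (x + y + j + 1 - (x + y))) * x +
        4 * ((x + y + i + 1 - (x + y)) * (x + y + j + 1 - (x + y)))
    rw [e1, e2, e3, e4]
    ring
  | sym n =>
    change p < n at hS
    refine ⟨8, 8 * (n - p) + 4, by norm_num, fun x hx => ?_⟩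
    obtain ⟨y, rfl⟩ := Nat.exists_eq_add_of_le hx
    obtain ⟨i, rfl⟩ := Nat.exists_eq_add_of_lt hS
    have e1 : x + y + i + 1 - (x + y - x) = x + i + 1 := by omega
    have e3 : x + y + i + 1 - (x + y) = i + 1 := by omega
    change 8 * ((x + y + i + 1 - (x + y - x)) * (x + y + i + 1 - (x + y - x) + 1) / 2) =
      4 * (x * x) + (8 * (x + y + i + 1 - (x + y)) + 4) * x +
        4 * ((x + y + i + 1 - (x + y)) * (x + y + i + 1 - (x + y) + 1))
    rw [e1, e3]
    have h2 : 2 * ((x + i + 1) * (x + i + 1 + 1) / 2) = (x + i + 1) * (x + i + 1 + 1) :=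
      Nat.mul_div_cancel' (Nat.even_mul_succ_self _).two_dvd
    calc 8 * ((x + i + 1) * (x + i + 1 + 1) / 2) = 4 * (2 * ((x + i + 1) * (x + i + 1 + 1) / 2)) := by
          ring
      _ = _ := by rw [h2]; ring
  | skew n =>
    change 2 * p + 1 < n at hS
    refine ⟨2, 4 * (n - 2 * p) - 2, by norm_num, fun x hx => ?_⟩
    obtain ⟨y, rfl⟩ := Nat.exists_eq_add_of_le hx
    obtain ⟨i, rfl⟩ := Nat.exists_eq_add_of_lt hS
    have e1 : 2 * (x + y) + 1 + i + 1 - 2 * (x + y - x) = 2 * x + i + 2 := by omega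
    have e3 : 2 * (x + y) + 1 + i + 1 - 2 * (x + y) = i + 2 := by omega
    change 2 * ((2 * (x + y) + 1 + i + 1 - 2 * (x + y - x)) *
        (2 * (x + y) + 1 + i + 1 - 2 * (x + y - x) - 1) / 2) =
      4 * (x * x) + (4 * (2 * (x + y) + 1 + i + 1 - 2 * (x + y)) - 2) * x +
        (2 * (x + y) + 1 + i + 1 - 2 * (x + y)) * (2 * (x + y) + 1 + i + 1 - 2 * (x + y) - 1)
    rw [e1, e3]
    have e4 : 2 * x + i + 2 - 1 = 2 * x + i + 1 := by omega
    have e5 : i + 2 - 1 = i + 1 := by omega
    have e6 : 4 * (i + 2) - 2 = 4 * i + 6 := by omega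
    rw [e4, e5, e6]
    have h2 : 2 * ((2 * x + i + 2) * (2 * x + i + 1) / 2) = (2 * x + i + 2) * (2 * x + i + 1) := by
      refine Nat.mul_div_cancel' ?_
      have := (Nat.even_mul_succ_self (2 * x + i + 1)).two_dvd
      rwa [mul_comm] at this
    rw [h2]
    ring

/-- the comparison of two levels for one ideal -/
theorem compare (S : MSpace) (p : ℕ) (hS : S.Small p) {x y : ℕ} (hxy : x < y) (hy : y ≤ p) :
    (4 * (x * y) < gap S p → S.codim (p - y) * x < S.codim (p - x) * y) ∧
    (4 * (x * y) ≠ gap S p → S.codim (p - y) * x ≠ S.codim (p - x) * y) := by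
  obtain ⟨k, c, hk, h⟩ := codim_form S p hS
  have h1 := h x (hxy.le.trans hy)
  have h2 := h y hy
  obtain ⟨z, rfl⟩ := Nat.exists_eq_add_of_lt hxy
  have e1 : k * (S.codim (p - (x + z + 1)) * x) =
      (4 * ((x + z + 1) * (x + z + 1)) + c * (x + z + 1) + gap S p) * x := by
    rw [← mul_assoc, h2]
  have e2 : k * (S.codim (p - x) * (x + z + 1)) =
      (4 * (x * x) + c * x + gap S p) * (x + z + 1) := by
    rw [← mul_assoc, h1]
  constructor
  · intro hlt
    refine lt_of_mul_lt_mul_left ?_ (Nat.zero_le k)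
    rw [e1, e2]
    nlinarith [Nat.mul_lt_mul_of_pos_right hlt (Nat.succ_pos z)]
  · intro hne heq
    apply hne
    rw [heq] at e1
    have e3 : (4 * ((x + z + 1) * (x + z + 1)) + c * (x + z + 1) + gap S p) * x =
        (4 * (x * x) + c * x + gap S p) * (x + z + 1) := by rw [← e1, e2]
    have e4 : (z + 1) * (4 * (x * (x + z + 1))) = (z + 1) * gap S p := by
      nlinarith
    exact Nat.eq_of_mul_eq_mul_left (Nat.succ_pos z) e4

theorem distinct_of_room (S : MSpace) {T : ℕ} (p : Fin T → ℕ) (hp : ∀ t, S.Small (p t))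
    (h : ∀ t, 4 * (p t * (p t - 1)) < gap S (p t)) : Distinct S p := by
  intro d d' hdd hpos
  apply ne_of_lt
  obtain ⟨t0, -, ht0⟩ := Finset.exists_ne_zero_of_sum_ne_zero hpos.ne'
  have key : ∀ t, p t - d' ≠ 0 → S.codim d * (p t - d') < S.codim d' * (p t - d) := by
    intro t ht
    have h1 := (compare S (p t) (hp t) (x := p t - d') (y := p t - d) (by omega) (by omega)).1 ?_
    · have e1 : p t - (p t - d) = d := by omega
      have e2 : p t - (p t - d') = d' := by omega
      rwa [e1, e2] at h1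
    · refine lt_of_le_of_lt ?_ (h t)
      have h2 : (p t - d') * (p t - d) ≤ (p t - 1) * p t := Nat.mul_le_mul (by omega) (by omega)
      rw [mul_comm (p t - 1) (p t)] at h2
      omega
  rw [Finset.mul_sum, Finset.mul_sum]
  refine Finset.sum_lt_sum (fun t _ => ?_) ⟨t0, Finset.mem_univ _, key t0 ht0⟩
  by_cases ht : p t - d' = 0
  · rw [ht, mul_zero]
    exact Nat.zero_le _
  · exact (key t ht).le

theorem distinct_of_power (S : MSpace) {T : ℕ} (p : Fin T → ℕ) (hp : ∀ t, S.Small (p t)) (r : ℕ)
    (hr : ∀ t, p t = r) (h : ∀ x y, 0 < x → x < y → y ≤ r → 4 * (x * y) ≠ gap S r) :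
    Distinct S p := by
  intro d d' hdd hpos
  have hs : ∀ e : ℕ, ∑ t, (p t - e) = T * (r - e) := by
    intro e
    rw [Finset.sum_congr rfl fun t _ => by rw [hr t]]
    simp
  rw [hs] at hpos
  rw [hs, hs]
  have hT : 0 < T := Nat.pos_of_ne_zero fun h0 => by
    rw [h0, zero_mul] at hpos
    exact lt_irrefl _ hpos
  have hd' : 0 < r - d' := Nat.pos_of_ne_zero fun h0 => by
    rw [h0, mul_zero] at hpos
    exact lt_irrefl _ hpos
  have hS : S.Small r := by rw [← hr ⟨0, hT⟩]; exact hp _
  have h1 := (compare S r hS (x := r - d') (y := r - d) (by omega) (by omega)).2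
    (h _ _ hd' (by omega) (by omega))
  have e1 : r - (r - d) = d := by omega
  have e2 : r - (r - d') = d' := by omega
  rw [e1, e2] at h1
  intro h2
  apply h1
  have h3 : T * (S.codim d * (r - d')) = T * (S.codim d' * (r - d)) := by
    calc _ = S.codim d * (T * (r - d')) := by ring
      _ = _ := h2
      _ = _ := by ring
  exact Nat.eq_of_mul_eq_mul_left hT h3

theorem codim_pos (S : MSpace) {T : ℕ} (p : Fin T → ℕ) (hp : ∀ t, S.Small (p t)) (d : ℕ)
    (hd : 0 < ∑ t, 1 * (p t - d)) : 0 < S.codim d := by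
  have h1 : (-(S.codim d : ℤ), ((∑ t, 1 * (p t - d) : ℕ) : ℤ)) ∈ detPairs S p fun _ => 1 := by
    rw [detPairs, Finset.mem_image]
    exact ⟨d, Finset.mem_filter.2 ⟨Finset.mem_range.2 (lt_rk S p (fun _ => 1) hp hd), hd⟩, rfl⟩
  have h2 := (prod_roots S T p hp _ h1).1
  change -(S.codim d : ℤ) < 0 at h2
  omega

theorem root (S : MSpace) {T : ℕ} (p : Fin T → ℕ) (hp : ∀ t, S.Small (p t)) (b : Polynomial ℂ)
    (hb : IsFunctionalEq (fun j => map (Int.castRingHom ℂ) (detProd S p j)) b) (d : ℕ)
    (hd : 0 < ∑ t, 1 * (p t - d)) :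
    b.eval (-(S.codim d : ℂ) / (∑ t, 1 * (p t - d) : ℕ)) = 0 := by
  have h1 : (-(S.codim d : ℤ), ((∑ t, 1 * (p t - d) : ℕ) : ℤ)) ∈ detPairs S p fun _ => 1 := by
    rw [detPairs, Finset.mem_image]
    exact ⟨d, Finset.mem_filter.2 ⟨Finset.mem_range.2 (lt_rk S p (fun _ => 1) hp hd), hd⟩, rfl⟩
  have h2 := (prod_roots S T p hp _ h1).2.2 b 1 (by simp) (isLocEq_of_isFunctionalEq hb)
  simp only [Int.cast_neg, Int.cast_natCast] at h2
  exact h2

/-- **The stronger form of the strong monodromy conjecture for products of determinantal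
ideals** of a generic, symmetric or skew symmetric matrix. (1) Let the numbers `ν_d / N_d` be
pairwise different. There is exactly one rational function `Z` with `Z(s) = ε(E(Z_mot(𝕃 ^ (-s))))` for
`s = 1, 2, 3, …`, the topological zeta function of `I`, and `b Z` is a polynomial for every
polynomial `b` which satisfies a functional equation of the family of all products of one minor
(Pfaffian) of size `p t` for each `t`, in particular for the Bernstein-Sato polynomial `b_I`.
(2) The numbers `ν_d / N_d` are pairwise different if `4 (p t) (p t - 1) < gap (p t)` for all `t`.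
(3) They are pairwise different if all the `p t` are equal to `r`, `I = I_r ^ T`, and `gap r` is not
`4 x y` for some integers `0 < x < y ≤ r`. -/
theorem result (S : MSpace) (T : ℕ) (p : Fin T → ℕ) (hp : ∀ t, S.Small (p t)) :
    (Distinct S p → ∀ (R : Type) [CommRing R] [IsDomain R] (E : MK ℂ →+* R) (ε : R →+* ℂ)
      (_ : ε (E ((Lu ℂ : (MK ℂ)ˣ) : MK ℂ)) = 1) (_ : E ((Lu ℂ : (MK ℂ)ˣ) : MK ℂ) ≠ 1),
      ∃ Z : RatFunc ℂ,
        IsTopZeta E ε (zetaId fun j => map (Int.castRingHom ℂ) (detProd S p j)) Z ∧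
        (∀ Z', IsTopZeta E ε (zetaId fun j => map (Int.castRingHom ℂ) (detProd S p j)) Z' →
          Z' = Z) ∧
        ∀ b : Polynomial ℂ,
          IsFunctionalEq (fun j => map (Int.castRingHom ℂ) (detProd S p j)) b →
            ∃ P : Polynomial ℂ, algebraMap (Polynomial ℂ) (RatFunc ℂ) b * Z
              = algebraMap (Polynomial ℂ) (RatFunc ℂ) P) ∧
    ((∀ t, 4 * (p t * (p t - 1)) < gap S (p t)) → Distinct S p) ∧
    ∀ r : ℕ, (∀ t, p t = r) → (∀ x y, 0 < x → x < y → y ≤ r → 4 * (x * y) ≠ gap S r) →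
      Distinct S p := by
  classical
  refine ⟨fun hdist R _ _ E ε hε hE => ?_, distinct_of_room S p hp,
    fun r => distinct_of_power S p hp r⟩
  have hflag := zetaId_flag S T p
  obtain ⟨Z, g, h1, h2, h3⟩ := topZeta_flag E ε hε hE S.codim (fun d => ∑ t, 1 * (p t - d))
    (Finset.range S.rk)
    (fun i hi => ⟨Finset.mem_range.2 (lt_rk S p (fun _ => 1) hp hi), codim_pos S p hp i hi⟩) hflag
  refine ⟨Z, h1, h2, fun b hb => ?_⟩
  have hdvd : (∏ i ∈ (Finset.range S.rk).filter (fun i => 0 < ∑ t, 1 * (p t - i)),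
      Pool.Agent.H59UC.lin (∑ t, 1 * (p t - i)) (S.codim i)) ∣ b := by
    refine Finset.prod_dvd_of_coprime ?_ fun i hi => ?_
    · intro i hi j hj hij
      have hi' := (Finset.mem_filter.1 hi).2
      have hj' := (Finset.mem_filter.1 hj).2
      refine lin_coprime (codim_pos S p hp i hi') (codim_pos S p hp j hj') fun _ _ => ?_
      simp only [one_mul] at hi' hj' ⊢
      rcases lt_or_gt_of_ne hij with hlt | hlt
      · exact hdist i j hlt hj'
      · exact fun h => hdist j i hlt hi' h.symm
    · have hi' := (Finset.mem_filter.1 hi).2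
      exact lin_dvd (codim_pos S p hp i hi') b fun _ => root S p hp b hb i hi'
  obtain ⟨c, hc⟩ := hdvd
  refine ⟨c * g, ?_⟩
  rw [hc, map_mul, map_mul, ← h3]
  ring

end Pool.Agent.Results.MP_ee8c61_ag.DeterminantalStrong
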