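import Pool.Agent.H63.VM.Final

/-!
# The strong monodromy conjecture for ideals generated by the products of an arbitrary polynomial with
general forms in arbitrary polynomials

Let `P, g_1, …, g_r ∈ ℂ[x_1, …, x_n]` be arbitrary polynomials, let `m ≥ 2` and `c ≥ 2`, and let

`I = (f_1, …, f_c)`, `f_i = P · G_i(g_1, …, g_r)`,

where `G_1, …, G_c` are **general forms of degree `m`** (their coefficients are outside of the zeros of
a nonzero polynomial `Γ`). Let `h : Y → ℂ ^ n` be a log resolution of the ideal `P · (g_1, …, g_r)`, with
the divisors `E_i` (`i ∈ J`); let `a'_i` be the order of `P` and `a_i` the order of the ideal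
`(g_1, …, g_r)` along `E_i`, and `k_i = ν_i - 1` the order of the Jacobian determinant of `h`. For general
`G_i` the ideal `I · O_Y` is `O(-∑ N_i E_i)`, `N_i = a'_i + m a_i`, times the ideal of a smooth subvariety
`V` of codimension `c` (or empty) which has normal crossings with the `E_i` (Bertini); the blow-up of
`V` is a log resolution of `I`, with one more divisor, for which `N = 1` and `ν = c`, a bundle of
projective spaces of dimension `c - 1` over `V`. So the topological zeta function of `I` is

`Z_I(s) = ∑_S (χ(E_S° \ V) + χ(E_S° ∩ V) c / (s + c)) ∏_{i ∈ S} 1 / (N_i s + ν_i)`.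

The polynomials `g_j` define a morphism `φ : Y → ℙ ^ (r - 1)`.

* **Q2.** Assume that for all sets `T` of divisors with the same ratio `α = ν_i / N_i` which have a common
  point, `φ` is an immersion at some point of `E_T°` (this is for instance true if `g` consists of the
  generators `b_i` of an ideal of which the blow-up is `Y`, and of the `x_j b_i`: then `φ` is an
  embedding); for `T = {i}` it is enough that the restriction of `φ` to `E_i` is an immersion at such a
  point, with the exception of `α = c`. Then `b_I Z_I` is a polynomial.
* **Q1.** Assume that for all these sets `T` the restriction of `φ` to the stratum `E_T°` is an immersion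
  at some point. Then every pole of `Z_I` is a root of `b_I`.

Moreover in the first case *all the candidate poles* are roots, with the expected multiplicity: `|T|`
divisors with the ratio `α` through a point give the root `-α` of multiplicity at least `|T|`, and at
least `|T| + 1` for `α = c`, `|T| + c ≤ n`. There are no conditions on the numbers `N_i`, `ν_i`.

The case `c = 1` is `MP_504089_ag/GeneralMembers`, with `m ≥ 3` and with an exception for poles of
order `n`; here there is no exception. For small `c` (for example `c ≤ n`) the ideals `I` are different from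
those in `ReesStrata`, as the blow-up of `I` is then far from `Y`. `I` is a complete
intersection outside of the zeros of `P` and of the `g_j` if `c ≤ n`.

The proof. Let `α = ν_i / N_i` for `i ∈ T`. A functional equation of the `f_i` is an identity of
polynomials in the exponents `s_1, …, s_c`; it is restricted to a line `s_i = τ_i(s)`, `∑ τ_i(s) = s`. If the
coefficients of the `G_i` are algebraically independent over the field of the coefficients of `P` and
the `g_j`, then it specialises to a functional equation for pencils `f_{i,0} + t f_{i,1}` over `ℂ(t)`,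
divided by the factors of `b(s)` at `s = -α`. Here `f_{1,0} = P · G_0(g)` is a *tangent member*: in local
coordinates at a point `y ∈ E_T°` it is `∏_{t ∈ T} X_t ^ (N_t)` times a quadratic form plus terms of higher
weight. After the substitution `X_t ↦ t ^ (1 / 2) X_t` the integral of `∏ f_i ^ (s_i)` becomes a product of
values of the gamma function times a power of `t`; a formal version of it, a functional on Laurent
series with values in `ℂ[ε] / (ε ^ μ)`, `s = -α + ε`, kills the right side of the equation.

* For the first kind of roots we take `s_1 = 1/5`, `s_2 = s - 1/5` and `s_i = 0` for `i ≥ 3`, and the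
  members `f_{i,0}`, `i ≥ 2`, do not vanish at `y` (after division by the monomial). Then there is no
  resonance, so the functional does not kill the left side.
* For the root `-c` we take `s_1 = s + c - 1` and `s_i = -1` for `i ≥ 2`, and `f_{i,0}`, `i ≥ 2`, is the
  monomial times a coordinate `X_{C(i)}` times a unit, and `f_{1,0}` contains the squares of the other
  coordinates. The functional is the iterated residue along the `X_{C(i)} = 0`, followed by the
  functional for `s_1 = -1 + ε`.

Finally the multiplicities pass from very general to general `G_i` by the theory of `W425.GN` (Gröbner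
bases in the Weyl algebra), applied to `∑ y_i f_i`.
-/

set_option autoImplicit false

namespace Pool.Agent.Results.MP_ee8c61_ag.GeneralMembersIdeals

open Polynomial Pool.Agent.H63.VI Pool.Agent.H63.VM
open Pool.Agent.W574.SM (IsFunctionalEq)

/-- **The strong monodromy conjecture (Q1 and Q2) for `I = (f_1, …, f_c)`, `f_i = P · G_i(g_1, …, g_r)`,
`G_1, …, G_c` general forms of degree `m ≥ 2`, `c ≥ 2`.**

Let `k i`, `a' i`, `a i` (`i ∈ J`, a finite set) be natural numbers with `N i = a' i + m * a i ≥ 1`, and
`ν i = k i + 1`. There is a nonzero polynomial `Γ` such that for all forms `G_1, …, G_c` of degree `m`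
whose coefficients are not a zero of `Γ`, and for every `b ≠ 0` with `IsFunctionalEq f b` (the functional
equation in the definition of `b_I`, which is the monic polynomial of least degree of this kind):

* Let `T` be a set of divisors with `ν i = α N i`, with a chart (`IsChart`) at a point which lies
  exactly on the divisors of `T`. If the morphism given by the `g j` is an immersion at this point then
  `(s + α) ^ |T|` divides `b(s)`, and `(s + α) ^ (|T| + 1)` divides `b(s)` if `α = c` and `|T| + c ≤ n`. If
  `T ≠ ∅` and the restriction of the morphism to the intersection of the divisors is an immersion then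
  `b(-α) = 0`.

* Let `χ S`, `χ' S` be integers with `χ' S = 0` for `|S| + c > n`, and let
  `Z(s) = ∑_S (χ S + χ' S c / (s + c)) ∏_{i ∈ S} 1 / (N i s + ν i)`. If the resolution satisfies the
  condition `CoveredS` then `b(s) Z(s)` is a polynomial; if it satisfies the condition `CoveredW` then
  every pole of `Z` is a root of `b`. -/
theorem result {n c : ℕ} (hc : 2 ≤ c) {ρ : Type} [Fintype ρ] (P : MvPolynomial (Fin n) ℂ)
    (g : ρ → MvPolynomial (Fin n) ℂ) (m : ℕ) (hm : 2 ≤ m) (J : Type) [Fintype J]
    (k a' a : J → ℕ) (hN : ∀ i, 1 ≤ a' i + m * a i) :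
    ∃ Γ : MvPolynomial (Fin c × {ν : ρ →₀ ℕ // ν.degree = m}) ℂ, Γ ≠ 0 ∧
      ∀ G : Fin c → MvPolynomial ρ ℂ, (∀ i, (G i).IsHomogeneous m) →
        MvPolynomial.eval (fun p => (G p.1).coeff p.2.1) Γ ≠ 0 →
        ∀ b : ℂ[X], b ≠ 0 → IsFunctionalEq (fun i => P * MvPolynomial.aeval g (G i)) b →
          (∀ (T : Finset J) (α : ℚ), (∀ i ∈ T, (k i : ℚ) + 1 = α * (a' i + m * a i : ℕ)) →
            ∀ (x : Fin n → MvPowerSeries (Fin n) ℂ) (e : J → Fin n)
              (w : ρ → MvPowerSeries (Fin n) ℂ), IsChart P g k a' a T x e w →
              (Immersion w Set.univ → (X + C (α : ℂ)) ^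
                (if α = c ∧ T.card + c ≤ n then T.card + 1 else T.card) ∣ b) ∧
              (T.Nonempty → Immersion w {t | ∀ i ∈ T, e i ≠ t} → b.eval (-(α : ℂ)) = 0)) ∧
          (∀ χ χ' : Finset J → ℤ, (∀ S, χ' S ≠ 0 → S.card + c ≤ n) →
            (CoveredS P g m c k a' a χ χ' → ∃ R : ℂ[X], algebraMap ℂ[X] (RatFunc ℂ) b *
              zetaI c (fun i => a' i + m * a i) (fun i => k i + 1) χ χ' =
                algebraMap ℂ[X] (RatFunc ℂ) R) ∧
            (CoveredW P g m c k a' a χ χ' → ∀ z : ℂ,
              (zetaI c (fun i => a' i + m * a i) (fun i => k i + 1) χ χ').denom.eval z = 0 →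
                b.eval z = 0)) := by
  classical
  obtain ⟨c, rfl⟩ := Nat.exists_eq_add_of_le' hc
  choose Γ hΓ hΓ' using fun T : Finset J => exists_gamma3 P g m hm k a' a hN c T
  refine ⟨∏ T, Γ T, Finset.prod_ne_zero_iff.2 fun T _ => hΓ T, fun G hG hne b hb0 hb => ?_⟩
  rw [map_prod, Finset.prod_ne_zero_iff] at hne
  have key := fun T => hΓ' T G hG (hne T (Finset.mem_univ T)) b hb
  refine ⟨fun T α hα x e w hch => ⟨fun hw => ?_, fun hT hw => ?_⟩,
    fun χ χ' hχ => ⟨fun hcov => mul_poly hb0 fun z => final_S P g m k a' a hN (c + 2)
      (fun T => (key T).1) (fun T => (key T).2) χ χ' hχ hb0 hcov z,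
      fun hcov z hz => final_W P g m k a' a hN (c + 2)
      (fun T => (key T).1) (fun T => (key T).2) χ χ' hχ hb0 hcov z hz⟩⟩
  · rw [← sub_neg_eq_add, ← C_neg]
    split_ifs with h
    · exact ((key T).1 α hα ⟨x, e, w, hch, hw⟩).2 h.1 h.2
    · rcases Finset.eq_empty_or_nonempty T with hT0 | hT
      · rw [hT0, Finset.card_empty, pow_zero]
        exact one_dvd _
      · exact ((key T).1 α hα ⟨x, e, w, hch, hw⟩).1 hT
  · have h1 := (key T).2 α hα hT ⟨x, e, w, hch, hw⟩
    rwa [pow_one, dvd_iff_isRoot] at h1

end Pool.Agent.Results.MP_ee8c61_ag.GeneralMembersIdeals
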