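import Pool.Agent.R779.HK.Tup
import Pool.Agent.H59UC.Simple

set_option autoImplicit false

/-! # The stronger form of the strong monodromy conjecture for products of powers of Hankel
# determinantal ideals

Let `x_0, …, x_{N - 1}` be the coordinates of the affine space `ℂ ^ N`. The Hankel matrices `(x_{i + j})`
of rank at most `d` form a closed subset `Σ_d`, `2 d < N`, of dimension `2 d`: the affine cone over the
variety of the `d`-secant `(d - 1)`-planes of the rational normal curve of degree `N - 1`. For
`2 p < N` let `I_p` be the ideal of the maximal minors of the `p × (N + 1 - p)` Hankel matrix, whose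
zero set is `Σ_{p - 1}` (it contains the `p`-minors of the other Hankel matrices in these variables;
Gruson and Peskine). Let `T` be a finite set, `2 p t < N` and `a t ≥ 0` for `t ∈ T`, and let

  `I = ∏ t, I_{p t} ^ a t`,

generated by the products of the minors (`prodFam`).

The resolution. Let `P` be the maximum of the `p t`, and let `Y` be obtained from the affine space by
blowing up `Σ_0 = {0}` and the strict transforms of `Σ_1, …, Σ_{P - 1}`, in this order. It is smooth,
and the exceptional divisors `E_0, …, E_{P - 1}` cross normally (Bertram; Thaddeus; Vermeire). The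
multiplicity of the Jacobian determinant along `E_d` is `ν_d - 1` with `ν_d = N - 2 d`, and the ideal
`I_p` becomes the ideal of the divisor `∑_{d < p} (p - d) E_d`. So `Y` is a log resolution of `I`, with
the multiplicities `N_d = ∑ t, a t * max (p t - d, 0)`, and the poles of the topological zeta function
`Z_I` are among the numbers `- (N - 2 d) / N_d`. (In the theorem all `d < (N + 1) / 2` are listed; those
with `d ≥ P` have the multiplicity `0` and do not matter.)

The theorem: (1) all these numbers are roots of the Bernstein-Sato polynomial `b_I`, and so are the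
numbers `- (N - 2 d + l) / N_d`, `0 ≤ l < N_d`; (2) `b_I(s) Z_I(s)` is a polynomial.

The proof. (1) is `Pool.Agent.R779.HK.ideal_roots`, in the helper files of
`Pool/Agent/Results/MP_504089_ag/HankelDeterminantal.lean`, the result on the hypersurfaces
`∑_J y_J M_J = 0`: `E_d` is a Rees divisor of `I_p` for every `p > d`, by an explicit formal chart at
general points of `E_d`, and a residue computation there gives the roots. (2) The numbers
`(N - 2 d) / N_d` are strictly increasing in `d`, for all exponents `a t`, since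
`(N - 2 d) (N_d - N_{d+1}) - 2 N_d = ∑ a t (N - 2 p t)`, the sum over the `t` with `p t > d`. So `Z_I` has
only simple poles. For the single ideals of minors of generic matrices see `DeterminantalIdeals`. -/

namespace Pool.Agent.Results.MP_ee8c61_ag.HankelIdeals

open Pool.Agent.W574.SM Pool.Agent.TH192.DT Pool.Agent.R779.HK

/-- The codimension `ν_d = N - 2 d` of the set `Σ_d` of the Hankel matrices of rank at most `d`. -/
def nu (N : ℕ) (d : Fin ((N + 1) / 2)) : ℕ := N - 2 * d

/-- The multiplicity `N_d = ∑ t, a t * max (p t - d, 0)` of `∏ t, I_{p t} ^ a t` along `E_d`. -/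
def mul {T : Type} [Fintype T] (N : ℕ) (p a : T → ℕ) (d : Fin ((N + 1) / 2)) : ℕ :=
  ∑ t, a t * (p t - d)

/-- one step: `ν_{d+1} N_d > ν_d N_{d+1}` -/
theorem step {T : Type} [Fintype T] (N : ℕ) (p a : T → ℕ) (hp : ∀ t, 2 * p t < N) (d : ℕ)
    (h : 0 < ∑ t, a t * (p t - d)) :
    (N - 2 * d) * ∑ t, a t * (p t - (d + 1)) < (N - 2 * (d + 1)) * ∑ t, a t * (p t - d) := by
  obtain ⟨t0, -, ht0⟩ := Finset.exists_ne_zero_of_sum_ne_zero h.ne'
  rw [Finset.mul_sum, Finset.mul_sum]
  have hterm : ∀ t, (N - 2 * d) * (p t - (d + 1)) ≤ (N - 2 * (d + 1)) * (p t - d) ∧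
      (0 < p t - d → (N - 2 * d) * (p t - (d + 1)) < (N - 2 * (d + 1)) * (p t - d)) := by
    intro t
    have hpt := hp t
    rcases Nat.lt_or_ge d (p t) with hd | hd
    · obtain ⟨x, hx⟩ : ∃ x, p t = d + 1 + x := ⟨p t - (d + 1), by omega⟩
      obtain ⟨y, hy⟩ : ∃ y, N = 2 * p t + 1 + y := ⟨N - (2 * p t + 1), by omega⟩
      have e1 : p t - (d + 1) = x := by omega
      have e2 : p t - d = x + 1 := by omega
      have e3 : N - 2 * d = 2 * x + 3 + y := by omega
      have e4 : N - 2 * (d + 1) = 2 * x + 1 + y := by omega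
      rw [e1, e2, e3, e4]
      constructor
      · nlinarith
      · intro _
        nlinarith
    · have e1 : p t - (d + 1) = 0 := by omega
      have e2 : p t - d = 0 := by omega
      rw [e1, e2]
      simp
  refine Finset.sum_lt_sum (fun t _ => ?_) ⟨t0, Finset.mem_univ _, ?_⟩
  · have := (hterm t).1
    calc (N - 2 * d) * (a t * (p t - (d + 1))) = a t * ((N - 2 * d) * (p t - (d + 1))) := by ring
      _ ≤ a t * ((N - 2 * (d + 1)) * (p t - d)) := Nat.mul_le_mul_left _ this
      _ = _ := by ring
  · have h1 : a t0 ≠ 0 := left_ne_zero_of_mul ht0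
    have h2 : p t0 - d ≠ 0 := right_ne_zero_of_mul ht0
    have := (hterm t0).2 (Nat.pos_of_ne_zero h2)
    calc (N - 2 * d) * (a t0 * (p t0 - (d + 1))) = a t0 * ((N - 2 * d) * (p t0 - (d + 1))) := by ring
      _ < a t0 * ((N - 2 * (d + 1)) * (p t0 - d)) :=
          Nat.mul_lt_mul_of_pos_left this (Nat.pos_of_ne_zero h1)
      _ = _ := by ring

/-- the numbers `ν_d / N_d` are strictly increasing -/
theorem mono {T : Type} [Fintype T] (N : ℕ) (p a : T → ℕ) (hp : ∀ t, 2 * p t < N) (d k : ℕ)
    (h : 0 < ∑ t, a t * (p t - (d + 1 + k))) :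
    (N - 2 * d) * ∑ t, a t * (p t - (d + 1 + k)) <
      (N - 2 * (d + 1 + k)) * ∑ t, a t * (p t - d) := by
  have hmono : ∀ d e : ℕ, d ≤ e → ∑ t, a t * (p t - e) ≤ ∑ t, a t * (p t - d) := fun d e hde =>
    Finset.sum_le_sum fun t _ => Nat.mul_le_mul_left _ (by omega)
  induction k with
  | zero => exact step N p a hp d (lt_of_lt_of_le h (hmono _ _ (by omega)))
  | succ k ih =>
    have h1 : 0 < ∑ t, a t * (p t - (d + 1 + k)) := lt_of_lt_of_le h (hmono _ _ (by omega))
    have h2 := ih h1
    have h3 := step N p a hp (d + 1 + k) h1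
    have h4 : d + 1 + k + 1 = d + 1 + (k + 1) := by omega
    rw [h4] at h3
    by_contra hcon
    push Not at hcon
    -- multiply the three inequalities
    have h5 : (N - 2 * d) * ∑ t, a t * (p t - (d + 1 + (k + 1))) * ∑ t, a t * (p t - (d + 1 + k)) ≥
        (N - 2 * (d + 1 + (k + 1))) * (∑ t, a t * (p t - d)) * ∑ t, a t * (p t - (d + 1 + k)) := by
      have := Nat.mul_le_mul_right (∑ t, a t * (p t - (d + 1 + k))) hcon
      calc _ ≤ _ := this
        _ = _ := by rw [← Finset.sum_mul]; ring
    have h6 : (N - 2 * (d + 1 + k)) * ∑ t, a t * (p t - (d + 1 + (k + 1))) * ∑ t, a t * (p t - d) <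
        (N - 2 * (d + 1 + (k + 1))) * (∑ t, a t * (p t - (d + 1 + k))) * ∑ t, a t * (p t - d) := by
      have hpos : 0 < ∑ t, a t * (p t - d) := lt_of_lt_of_le h (hmono _ _ (by omega))
      have := Nat.mul_lt_mul_of_pos_right h3 hpos
      calc _ = _ := by rw [← Finset.sum_mul]; ring
        _ < _ := this
    have h7 : (N - 2 * d) * (∑ t, a t * (p t - (d + 1 + k))) * ∑ t, a t * (p t - (d + 1 + (k + 1))) <
        (N - 2 * (d + 1 + k)) * (∑ t, a t * (p t - d)) * ∑ t, a t * (p t - (d + 1 + (k + 1))) :=
      Nat.mul_lt_mul_of_pos_right h2 h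
    rw [← Finset.sum_mul] at h5 h6
    nlinarith

/-- **The stronger form of the strong monodromy conjecture holds for `I = ∏ t, I_{p t} ^ a t`**, `I_p`
the ideal of the `p`-minors of the Hankel matrices in `N` variables, `2 p t < N`. Let `b` satisfy a
functional equation of the generators of `I`, for instance, let `b` be the Bernstein-Sato polynomial
`b_I`. (1) The numbers `-(N - 2 d + l) / N_d`, `0 ≤ l < N_d`, are roots of `b`, for all `d`. (2) `b Z` is
a polynomial for the topological zeta function `Z` of `I`, computed on the resolution described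
above (with arbitrary integers `χ` in the place of the Euler characteristics of the strata). -/
theorem result {T : Type} [Fintype T] [DecidableEq T] (N : ℕ) (p a : T → ℕ)
    (hp : ∀ t, 2 * p t < N) (b : Polynomial ℂ)
    (hb : IsFunctionalEq (prodFam fun q : Σ t, Fin (a t) => hankel N (p q.1)) b) :
    (∀ (d : Fin ((N + 1) / 2)) (l : ℕ), l < mul N p a d →
      b.eval (-((nu N d : ℂ) + l) / mul N p a d) = 0) ∧
    ∀ χ : Finset (Fin ((N + 1) / 2)) → ℤ, ∃ P : Polynomial ℂ,
      algebraMap (Polynomial ℂ) (RatFunc ℂ) b * topZ (nu N) (mul N p a) χ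
        = algebraMap (Polynomial ℂ) (RatFunc ℂ) P := by
  have h : ∀ (d : Fin ((N + 1) / 2)) (l : ℕ), l < mul N p a d →
      b.eval (-((nu N d : ℂ) + l) / mul N p a d) = 0 := fun d l hl =>
    ideal_roots N d p a hp b 1 (by simp) (isLocEq_of_isFunctionalEq hb) l hl
  have hmain : ∀ i j : Fin ((N + 1) / 2), (i : ℕ) < j → 0 < mul N p a j →
      nu N i * mul N p a j < nu N j * mul N p a i := by
    intro i j hij hj
    obtain ⟨k, hk⟩ : ∃ k, (j : ℕ) = i + 1 + k := ⟨j - (i + 1), by omega⟩
    unfold nu mul at *
    rw [hk] at hj ⊢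
    exact mono N p a hp i k hj
  refine ⟨h, fun χ => Pool.Agent.H59UC.simple_mul _ _ χ (fun d => by have := d.2; unfold nu; omega) b
    (fun d hd => ?_) fun i j hi hj hij => ?_⟩
  · have := h d 0 hd
    rwa [Nat.cast_zero, add_zero] at this
  · rcases lt_or_gt_of_ne (fun hh => hij (Fin.ext hh) : (i : ℕ) ≠ j) with hlt | hlt
    · exact (hmain i j hlt hj).ne
    · exact (hmain j i hlt hi).ne'

end Pool.Agent.Results.MP_ee8c61_ag.HankelIdeals
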