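import Pool.Agent.H74T.Germ

set_option autoImplicit false

/-! # Log canonical thresholds on open subsets of the blow-up of an ideal

Let `I = (f_1, ..., f_r)` be an ideal of `ℂ[x_1, ..., x_N]` and `P` a point. Let `E_i` be the divisors of a
log resolution, with `a_i = ord I` and `ν_i = 1 + ord K`. For a form `H` in `r` variables consider those
`E_i` over `P` whose image in the blow-up of `I`, a subvariety of `ℂ ^ N × ℙ ^ (r - 1)`, meets the open set
`H ≠ 0`, and let `c₁` be the smallest of their numbers `ν_i / a_i`. We prove that `-c₁` is a root of the
Bernstein-Sato polynomial `b_I`, and that its multiplicity is at least the number of these divisors with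
the ratio `c₁` which meet in a stratum not mapped into `H = 0`. More generally this holds for the minimum
`c₀` of the numbers `(ν_i + ord g) / a_i` of these divisors, for any polynomial `g`, if `c₀ < c₁ + 1`.

For `H = 1` the numbers `c₀` are the jumping numbers of `I` at `P` in the interval `[lct, lct + 1)`, and
these roots were found by Ein, Lazarsfeld, Smith, Varolin (principal ideals) and Budur, Mustata, Saito.
For other `H` we also obtain roots which come from divisors with larger `ν_i / a_i`: *`-ν_i / a_i` is a root
whenever `E_i` computes the log canonical threshold at the general point of its image in the blow-up of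
`I`* (for this one may take the products `x ^ α f_j` as generators). So the theorem is a common
generalisation of the one on the log canonical threshold and of the one on the divisors of the
normalised blow-up (`ReesDivisors`). There is no condition on the ideal and on the dimension.

The statement is local, and it is invariant under formal coordinate changes. So it can be used at every
step of the computation of the topological zeta function of a cone: this gives the theorem below, in
which it is the constructor `IGerm.jump` of the class `IGerm` of germs; see `relative_jumping_number`
below for the statement itself.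

For instance, let `f_j` be forms of degree `d` in `n + 1` variables. Then `s₀ = -(n + 1) / d` comes from the
blow-up of the origin. It is a root if no divisor over `ℙ ^ n` with `ν / a < (n + 1) / d` dominates the
closure of the image of the rational map `(f_1 : ... : f_r)` on `ℙ ^ n`; see `relJump_of_light` in
`Pool.Agent.H74T.Thr`. The case that this map is generically finite was known (`ConeIdeals`).

The proof of the theorem on thresholds (`jump_main` in `Pool.Agent.H74T.Jump`). Let `M` be the degree of
`H`, let `h = H ^ p` and `w = |H(f)| / |f| ^ M`. The functional equation gives an identity for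
`b(∑ s_j + p M) h(f) ∏ f_j ^ s_j`. We multiply it by the complex conjugate of `h(f) ∏ f_j ^ s_j`, integrate
against a test function, and sum over all `s` with the weights `∏ (-τ) ^ s_j / s_j!`. After integration
by parts all the terms on the right contain `H ^ (p - k)` with a fixed `k`, so that they are bounded by
`w ^ p |f| ^ (2 M p + 1) exp (-τ |f| ^ 2 / 2)`. The Mellin transform with respect to `τ` shows that
`b(-a) ∫ w ^ (2 p) |f| ^ (-2 a) φ` extends to a function of `a` which is analytic up to `c₁ + 1/2`
(and up to `(c₀ + c₁ + 1) / 2` if the test function contains `|g| ^ 2`). If `b(-c₀) ≠ 0` then the integral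
is finite for some `a > c₀`, by a theorem of Landau on Dirichlet integrals. -/

namespace Pool.Agent.Results.MP_ee8c61_ag.ThresholdsOnBlowUp

open MvPolynomial Pool.Agent.W574.SM Pool.Agent.H74T
open Pool.Agent.Y229.RE (trans)

/-- **The strong monodromy conjecture for ideals with germs of the class `IGerm`.** Let `F_1, ..., F_r` be
polynomials, and let `b` be a polynomial which satisfies a functional equation of the `F_j`, in
particular the Bernstein-Sato polynomial of the ideal `I = (F_j)`. Let `s₀` be a complex number and `m` a
natural number. Let the `z_i` be local topological zeta functions of germs of `I` (more precisely, of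
`∑_j y_j F_j`) at points `p_i`, which belong to the class `IGerm s₀ m`, let `Z = χ_0 + ∑_i χ_i z_i` with
integers `χ_0` and `χ_i`, and let `o` be the order of the pole `s₀` of `Z`. Then `(s - s₀) ^ min (m, o)`
divides `b`. So for `m = 1` the pole `s₀` of `Z` is a root of `b`, and for large `m` the product `b Z` is
regular at `s₀`.

If the `p_i` are points `(0, q_i)`, if `χ_i` is the Euler characteristic of the set of the points of
`ℂ ^ N` where the local topological zeta function of `I` is `z_i`, and `χ_0` that of the set of the points
outside of the zero set of `I`, then `Z` is the topological zeta function of `I`. -/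
theorem result {N r M : ℕ} (F : Fin r → MvPolynomial (Fin N) ℂ) (b : Polynomial ℂ)
    (hb : IsFunctionalEq F b) (ε : Fin r ⊕ Fin N ≃ Fin M) (s₀ : ℂ) (m l : ℕ)
    (p : Fin l → Fin M → ℂ) (z : Fin l → RatFunc ℂ)
    (hz : ∀ i, IGerm s₀ m (trans (p i) (rename ε (linForm F)) : MvPowerSeries (Fin M) ℂ) (z i))
    (χ₀ : ℤ) (χ : Fin l → ℤ) :
    (Polynomial.X - Polynomial.C s₀) ^
      (min m (((χ₀ : RatFunc ℂ) + ∑ i, (χ i : RatFunc ℂ) * z i).denom.rootMultiplicity s₀)) ∣ b :=
  igerm_global F b hb ε s₀ m l p z hz χ₀ χ

/-- **Relative jumping numbers.** This is the special case of one germ of the kind `IGerm.jump`, with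
`z = 1 / (s - s₀) ^ o`, up to a translation of the point `P` to the origin: if `c₀` is a relative jumping
number of the ideal `(F_j)` at any point `P`, of order at least `o`, then `(s + c₀) ^ o` divides `b`. -/
theorem relative_jumping_number {N r : ℕ} (F : Fin r → MvPolynomial (Fin N) ℂ) (hF : ∃ j, F j ≠ 0)
    (b : Polynomial ℂ) (hb : IsFunctionalEq F b) (P : Fin N → ℂ) (c₀ : ℝ) (o : ℕ)
    (h : IsRelJump F P c₀ o) : (Polynomial.X - Polynomial.C (-(c₀ : ℂ))) ^ o ∣ b := by
  obtain ⟨S, Q, hS, hfe⟩ := hb
  exact relJump_root F hF b 1 ⟨S, Q, hS, fun s => by rw [one_mul]; exact hfe s⟩ P (by simp) c₀ o h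

end Pool.Agent.Results.MP_ee8c61_ag.ThresholdsOnBlowUp
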